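import Pool.Agent.K1H62.PG.Stm

set_option autoImplicit false

/-! Project PG, piece A: the orders of a prime permutation graph. -/

namespace Pool.Agent.K1H52.PG

open Pool.Agent.W878.VC Pool.Agent.K1H62.PG

/-- a partial order is compatible with the forcing of its comparability graph -/
theorem forc {lt : ℕ → ℕ → Prop} (h : SPO lt) (p q : ℕ × ℕ) (h1 : lt p.1 p.2)
    (h2 : Stp (Cmp lt) p q) : lt q.1 q.2 := by
  rcases h2 with ⟨e, h3, h4⟩ | ⟨e, h3, h4⟩
  · rcases h3 with h3 | h3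
    · exact h3
    · rw [← e] at h3
      exact absurd (Or.inr (h.trans _ _ _ h3 h1)) h4
  · rcases h3 with h3 | h3
    · exact h3
    · rw [← e] at h3
      exact absurd (Or.inl (h.trans _ _ _ h1 h3)) h4

theorem inv_swap {A l k : ℕ → ℕ → Prop} (h : Inv A l k) : Inv A k l := by
  intro u v
  rw [h u v]
  tauto

theorem inv_rev {A l k : ℕ → ℕ → Prop} (h : Inv A l k) :
    Inv A (fun u v => k v u) (fun u v => l v u) := by
  intro u v
  rw [h u v]
  tauto

theorem slo_rev {l : ℕ → ℕ → Prop} (h : SLO l) : SLO (fun u v => l v u) where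
  irr u := h.irr u
  trans u v w h1 h2 := h.trans _ _ _ h2 h1
  total u v huv := (h.total u v huv).symm

theorem gr_of_inv {A l k : ℕ → ℕ → Prop} (hl : SLO l) (h : Inv A l k) : Gr A where
  symm u v := by
    rw [h u v, h v u]
    tauto
  irr u := by
    rw [h u u]
    rintro (h | h)
    · exact hl.irr _ h.1
    · exact hl.irr _ h.1

theorem gr_co {A : ℕ → ℕ → Prop} (h : Gr A) : Gr (Co A) where
  symm u v huv := ⟨huv.1.symm, fun h' => huv.2 (h.symm _ _ h')⟩
  irr u hu := hu.1 rfl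

theorem prm_co {A : ℕ → ℕ → Prop} (h : Prm A) : Prm (Co A) := by
  intro X hX
  apply h X
  intro u hu v hv w hw
  have hwu : w ≠ u := by rintro rfl; exact hw hu
  have hwv : w ≠ v := by rintro rfl; exact hw hv
  obtain ⟨a, b⟩ := hX u hu v hv w hw
  unfold Co at a b
  constructor
  · have a1 : (¬ A u w) ↔ (¬ A v w) :=
      ⟨fun h => (a.1 ⟨hwu.symm, h⟩).2, fun h => (a.2 ⟨hwv.symm, h⟩).2⟩
    exact not_iff_not.1 a1
  · have b1 : (¬ A w u) ↔ (¬ A w v) :=
      ⟨fun h => (b.1 ⟨hwu, h⟩).2, fun h => (b.2 ⟨hwv, h⟩).2⟩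
    exact not_iff_not.1 b1

/-- the normalized case -/
theorem main {A l k : ℕ → ℕ → Prop} {p : Fin 4 → ℕ} (hl : SLO l) (hk : SLO k) (h : Inv A l k)
    (hP : Prm A) (h0 : l (p 0) (p 1) ∧ k (p 1) (p 0)) (h1 : l (p 2) (p 3) ∧ k (p 2) (p 3)) :
    SLO (lo A p) ∧ SLO (ko A p) ∧ Inv A (lo A p) (ko A p) := by
  have hA : Gr A := gr_of_inv hl h
  have hC : Gr (Co A) := gr_co hA
  have hPC : Prm (Co A) := prm_co hP
  have hE1 : SPO (fun u v => l u v ∧ k v u) :=
    ⟨fun u h => hl.irr _ h.1, fun u v w a b => ⟨hl.trans _ _ _ a.1 b.1, hk.trans _ _ _ b.2 a.2⟩⟩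
  have hE2 : SPO (fun u v => l u v ∧ k u v) :=
    ⟨fun u h => hl.irr _ h.1, fun u v w a b => ⟨hl.trans _ _ _ a.1 b.1, hk.trans _ _ _ a.2 b.2⟩⟩
  have hc1 : Cmp (fun u v => l u v ∧ k v u) = A := by
    funext u v
    exact propext (h u v).symm
  have hc2 : Cmp (fun u v => l u v ∧ k u v) = Co A := by
    funext u v
    apply propext
    constructor
    · intro h'
      have huv : u ≠ v := by
        rintro rfl
        rcases h' with h' | h' <;> exact hl.irr _ h'.1
      refine ⟨huv, fun hA' => ?_⟩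
      rcases (h u v).1 hA' with h2 | h2 <;> rcases h' with h' | h'
      · exact hk.asymm h2.2 h'.2
      · exact hl.asymm h2.1 h'.1
      · exact hl.asymm h2.1 h'.1
      · exact hk.asymm h2.2 h'.2
    · rintro ⟨huv, hn⟩
      rcases hl.total u v huv with a | a <;> rcases hk.total u v huv with b | b
      · exact Or.inl ⟨a, b⟩
      · exact absurd ((h u v).2 (Or.inl ⟨a, b⟩)) hn
      · exact absurd ((h u v).2 (Or.inr ⟨a, b⟩)) hn
      · exact Or.inr ⟨a, b⟩
  have hf1 := forc hE1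
  rw [hc1] at hf1
  have hf2 := forc hE2
  rw [hc2] at hf2
  have o1 : ∀ u v, (l u v ∧ k v u) ↔ A u v ∧ Fc A (p 0, p 1) (u, v) := fun u v =>
    orient hA hP (E := fun u v => l u v ∧ k v u) (fun u v h' => (h u v).2 (Or.inl h'))
      (fun u v a b => hl.asymm a.1 b.1) hf1 h0 u v
  have o2 : ∀ u v, (l u v ∧ k u v) ↔ Co A u v ∧ Fc (Co A) (p 2, p 3) (u, v) := fun u v =>
    orient hC hPC (E := fun u v => l u v ∧ k u v)
      (fun u v h' => by rw [← hc2]; exact Or.inl h')
      (fun u v a b => hl.asymm a.1 b.1) hf2 h1 u v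
  have el : lo A p = l := by
    funext u v
    apply propext
    unfold lo
    rw [← o1, ← o2]
    constructor
    · rintro (h' | h') <;> exact h'.1
    · intro h'
      have huv : u ≠ v := by rintro rfl; exact hl.irr _ h'
      rcases hk.total u v huv with b | b
      · exact Or.inr ⟨h', b⟩
      · exact Or.inl ⟨h', b⟩
  have ek : ko A p = k := by
    funext u v
    apply propext
    unfold ko
    rw [← o2]
    constructor
    · rintro (⟨h', h''⟩ | h')
      · exact ((o1 v u).2 ⟨hA.symm _ _ h', h''⟩).2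
      · exact h'.2
    · intro h'
      have huv : u ≠ v := by rintro rfl; exact hk.irr _ h'
      rcases hl.total u v huv with b | b
      · exact Or.inr ⟨b, h'⟩
      · have h2 := (o1 v u).1 ⟨b, h'⟩
        exact Or.inl ⟨hA.symm _ _ h2.1, h2.2⟩
  rw [el, ek]
  exact ⟨hl, hk, h⟩

theorem t_A : S_A := by
  rintro A p ⟨l, k, hl, hk, h⟩ hP ⟨h0, h1⟩
  have key : ∀ l k : ℕ → ℕ → Prop, SLO l → SLO k → Inv A l k → l (p 0) (p 1) ∧ k (p 1) (p 0) →
      SLO (lo A p) ∧ SLO (ko A p) ∧ Inv A (lo A p) (ko A p) := by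
    intro l k hl hk h h0
    obtain ⟨hne, hn⟩ := h1
    rcases hl.total _ _ hne with a | a <;> rcases hk.total _ _ hne with b | b
    · exact main hl hk h hP h0 ⟨a, b⟩
    · exact absurd ((h _ _).2 (Or.inl ⟨a, b⟩)) hn
    · exact absurd ((h _ _).2 (Or.inr ⟨a, b⟩)) hn
    · exact main (slo_rev hk) (slo_rev hl) (inv_rev h) hP ⟨h0.2, h0.1⟩ ⟨b, a⟩
  rcases (h _ _).1 h0 with h' | h'
  · exact key l k hl hk h h'
  · exact key k l hk hl (inv_swap h) ⟨h'.2, h'.1⟩

end Pool.Agent.K1H52.PG
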